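import Pool.Agent.H25.CFL.Targets

/-!
# MP_e37c09_lc, row FA1: a filter which meets the dense sets

`lam` is the union of countably many sets in HOD with fewer than `γ` elements in HOD, so one gets
a generic filter as the filter generated by a sequence of length `ω`.
-/

open Ordinal Cardinal Order Set
open scoped ZFSet

universe u

namespace Pool.Agent.H95.HCL

open _root_.HD Pool.Agent.H25.CFL

/-- The composition of two sets of pairs. -/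
noncomputable def cmp (τ : Ordinal.{u}) (y g f : ZFSet.{u}) : ZFSet.{u} :=
  ZFSet.sep (fun p => ∃ a b D, p = ZFSet.pair a D ∧ ZFSet.pair a b ∈ g ∧ ZFSet.pair b D ∈ f)
    (ZFSet.prod τ.toZFSet y)

theorem mem_cmp {τ lam : Ordinal.{u}} {x y g f : ZFSet.{u}} (hg : ZFSet.IsFunc τ.toZFSet x g)
    (hf : ZFSet.IsFunc lam.toZFSet y f) {p : ZFSet.{u}} :
    p ∈ cmp τ y g f ↔ ∃ a b D, p = ZFSet.pair a D ∧ ZFSet.pair a b ∈ g ∧ ZFSet.pair b D ∈ f := by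
  unfold cmp
  rw [ZFSet.mem_sep]
  refine ⟨fun h => h.2, fun h => ⟨?_, h⟩⟩
  obtain ⟨a, b, D, rfl, h1, h2⟩ := h
  have h3 := ZFSet.pair_mem_prod.1 (hg.1 h1)
  have h4 := ZFSet.pair_mem_prod.1 (hf.1 h2)
  exact ZFSet.pair_mem_prod.2 ⟨h3.1, h4.2⟩

theorem hod_snd {b D : ZFSet.{u}} (h : HOD (ZFSet.pair b D)) : HOD D := by
  have h1 : HOD ({b, D} : ZFSet.{u}) := by
    refine (hod_iff.1 h).2 _ ?_
    unfold ZFSet.pair
    exact ZFSet.mem_pair.2 (Or.inr rfl)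
  exact (hod_iff.1 h1).2 _ (ZFSet.mem_pair.2 (Or.inr rfl))

theorem hod_fst {b D : ZFSet.{u}} (h : HOD (ZFSet.pair b D)) : HOD b := by
  have h1 : HOD ({b, D} : ZFSet.{u}) := by
    refine (hod_iff.1 h).2 _ ?_
    unfold ZFSet.pair
    exact ZFSet.mem_pair.2 (Or.inr rfl)
  exact (hod_iff.1 h1).2 _ (ZFSet.mem_pair.2 (Or.inl rfl))

theorem hod_cmp {τ lam : Ordinal.{u}} {x y g f : ZFSet.{u}} (hg : ZFSet.IsFunc τ.toZFSet x g)
    (hf : ZFSet.IsFunc lam.toZFSet y f) (hG : HOD g) (hF : HOD f) : HOD (cmp τ y g f) := by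
  refine hod_iff.2 ⟨?_, fun p hp => ?_⟩
  · refine OD.of_mem (P := fun v => ∃ a b D, v 0 = ZFSet.pair a D ∧ ZFSet.pair a b ∈ g ∧
      ZFSet.pair b D ∈ f) ?_ fun v => (mem_cmp hg hf).symm
    refine DZ.od (R := fun g v => ∃ a b D, v 0 = ZFSet.pair a D ∧ ZFSet.pair a b ∈ g ∧
      ZFSet.pair b D ∈ f) hG.od ?_
    refine DZ.od (R := fun f v => ∃ a b D, v 1 = ZFSet.pair a D ∧ ZFSet.pair a b ∈ v 0 ∧
      ZFSet.pair b D ∈ f) hF.od ?_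
    refine DZ.ex (R := fun a v => ∃ b D, v 2 = ZFSet.pair a D ∧ ZFSet.pair a b ∈ v 1 ∧
      ZFSet.pair b D ∈ v 0) ?_
    refine DZ.ex (R := fun b v => ∃ D, v 3 = ZFSet.pair (v 0) D ∧ ZFSet.pair (v 0) b ∈ v 2 ∧
      ZFSet.pair b D ∈ v 1) ?_
    refine DZ.ex (R := fun D v => v 4 = ZFSet.pair (v 1) D ∧ ZFSet.pair (v 1) (v 0) ∈ v 3 ∧
      ZFSet.pair (v 0) D ∈ v 2) ?_
    exact ((loc_pair 5 2 0).dz).and (((loc_pmem 2 1 4).dz).and (loc_pmem 1 0 3).dz)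
  · obtain ⟨a, b, D, rfl, h1, h2⟩ := (mem_cmp hg hf).1 hp
    exact HOD.pair (hod_fst ((hod_iff.1 hG).2 _ h1)) (hod_snd ((hod_iff.1 hF).2 _ h2))

theorem func_cmp {τ lam : Ordinal.{u}} {x y g f : ZFSet.{u}} (hx : x ⊆ lam.toZFSet)
    (hg : ZFSet.IsFunc τ.toZFSet x g) (hf : ZFSet.IsFunc lam.toZFSet y f) :
    ZFSet.IsFunc τ.toZFSet y (cmp τ y g f) := by
  refine ⟨fun p hp => (ZFSet.mem_sep.1 hp).1, fun z hz => ?_⟩
  obtain ⟨b, hb, hbu⟩ := hg.2 z hz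
  have hbx := (ZFSet.pair_mem_prod.1 (hg.1 hb)).2
  obtain ⟨D, hD, hDu⟩ := hf.2 b (hx hbx)
  refine ⟨D, (mem_cmp hg hf).2 ⟨z, b, D, rfl, hb, hD⟩, fun D' hD' => ?_⟩
  obtain ⟨a', b', D'', he, h1, h2⟩ := (mem_cmp hg hf).1 hD'
  obtain ⟨rfl, rfl⟩ := ZFSet.pair_injective he
  obtain rfl : b' = b := hbu _ h1
  exact hDu _ h2

/-- One step: below each condition there is a condition which is in all the dense sets with index
in a set with fewer than `γ` elements in HOD. -/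
theorem stp {γ lam : Ordinal.{u}} {P R f y : ZFSet.{u}} (hP : Dis γ P R) (hF : HOD f)
    (hf : ZFSet.IsFunc lam.toZFSet y f) (hy : ∀ D ∈ y, Opn P R D) {x : ZFSet.{u}}
    (hx : x ∈ PkHOD γ lam) (q : ZFSet.{u}) (hq : q ∈ P) :
    ∃ r ∈ P, ZFSet.pair r q ∈ R ∧ ∀ b D, b ∈ x → ZFSet.pair b D ∈ f → r ∈ D := by
  unfold PkHOD at hx
  rw [ZFSet.mem_sep, ZFSet.mem_powerset] at hx
  obtain ⟨hxl, τ, hτ, g, hG, hg, hsurj⟩ := hx
  obtain ⟨r, hr, hrq, h⟩ := hP.dis τ hτ (cmp τ y g f) y (hod_cmp hg hf hG hF)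
    (func_cmp hxl hg hf) hy q hq
  refine ⟨r, hr, hrq, fun b D hb hD => ?_⟩
  obtain ⟨a, ha, hab⟩ := hsurj b hb
  exact h a.toZFSet D ((mem_cmp hg hf).2 ⟨_, b, D, rfl, hab, hD⟩)

theorem pf_FA1 : T_FA1.{u} := by
  intro γ lam hSU P R hP f y hF hf hy p hp
  obtain ⟨x, hx, hcov⟩ := hSU
  have hs := fun k (q : {q // q ∈ P}) => stp hP hF hf hy (hx k) q.1 q.2
  choose nx hnP hnR hnD using hs
  let q : ℕ → {q // q ∈ P} := fun n => Nat.rec ⟨p, hp⟩ (fun k q => ⟨nx k q, hnP k q⟩) n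
  have hq0 : q 0 = ⟨p, hp⟩ := rfl
  have hqs : ∀ k, (q (k + 1)).1 = nx k (q k) := fun k => rfl
  have hstep : ∀ k, ZFSet.pair (q (k + 1)).1 (q k).1 ∈ R := fun k => by
    rw [hqs]; exact hnR k (q k)
  have hle : ∀ k l, k ≤ l → ZFSet.pair (q l).1 (q k).1 ∈ R := by
    intro k l hkl
    induction l, hkl using Nat.le_induction with
    | base => exact hP.refl _ (q k).2
    | succ l _ ih => exact hP.trans _ _ _ (hstep l) ih
  refine ⟨{r | ∃ k, ZFSet.pair (q k).1 r ∈ R}, ⟨0, ?_⟩, ?_, ?_, ?_, ?_⟩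
  · rw [hq0]; exact hP.refl _ hp
  · rintro r ⟨k, hk⟩
    exact (hP.sub _ _ hk).2
  · rintro r ⟨k, hk⟩ s hs
    exact ⟨k, hP.trans _ _ _ hk hs⟩
  · rintro r ⟨k, hk⟩ s ⟨l, hl⟩
    refine ⟨(q (max k l)).1, ⟨max k l, hP.refl _ (q _).2⟩, ?_, ?_⟩
    · exact hP.trans _ _ _ (hle k _ (le_max_left _ _)) hk
    · exact hP.trans _ _ _ (hle l _ (le_max_right _ _)) hl
  · intro a D haD
    have ha := (ZFSet.pair_mem_prod.1 (hf.1 haD)).1
    obtain ⟨b, hb, rfl⟩ := mem_toZFSet_iff.1 ha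
    obtain ⟨k, hk⟩ := hcov b hb
    refine ⟨(q (k + 1)).1, ⟨k + 1, hP.refl _ (q (k + 1)).2⟩, ?_⟩
    rw [hqs]
    exact hnD k (q k) _ D hk haD

end Pool.Agent.H95.HCL
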